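import Pool.Agent.TH416.CI.Main
import Pool.Agent.TH416.CI.Comb

set_option autoImplicit false

/-!
# The semigroup condition with one degree removed
-/

namespace Pool.Agent.Q281.QF

open Pool.Agent.TH416.CI
open scoped Pointwise

theorem landau_aux (n g : ℕ) (t : ℕ) (h : 60 * n / g = t)
    (hr : (t % 60) / 6 + (t % 60) / 15 + (t % 60) / 20 + 1 ≤ (t % 60) / 4 + (t % 60) / 30) :
    10 * n / g + 4 * n / g + 3 * n / g + 1 ≤ 15 * n / g + 2 * n / g := by
  have h' : ∀ a b : ℕ, 0 < a → a * b = 60 → b * n / g = (60 * n / g) / a := by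
    intro a b ha hab
    rw [Nat.div_div_eq_div_mul, ← hab, mul_assoc, mul_comm g a, Nat.mul_div_mul_left _ _ ha]
  rw [h' 6 10 (by norm_num) rfl, h' 15 4 (by norm_num) rfl, h' 20 3 (by norm_num) rfl,
    h' 4 15 (by norm_num) rfl, h' 30 2 (by norm_num) rfl, h]
  omega

theorem landau1 (n g : ℕ) (hg : 2 ≤ g) (h : g ∣ 10 * n + 1) :
    10 * n / g + 4 * n / g + 3 * n / g + 1 ≤ 15 * n / g + 2 * n / g := by
  rcases Nat.lt_or_ge g 7 with h7 | h7
  · interval_cases g <;> omega
  · obtain ⟨m, hm⟩ := h
    have hm0 : 0 < m := by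
      rcases Nat.eq_zero_or_pos m with rfl | h
      · simp at hm
      · exact h
    have hU : 60 * n / g = 6 * m - 1 := by
      apply Nat.div_eq_of_lt_le
      · have : (6 * m - 1) * g + g = 6 * (g * m) := by
          rw [← Nat.succ_mul, Nat.succ_eq_add_one, Nat.sub_add_cancel (by omega)]; ring
        omega
      · have : (6 * m - 1 + 1) * g = 6 * (g * m) := by
          rw [Nat.sub_add_cancel (by omega)]; ring
        omega
    have h2 : m % 2 = 1 := by
      rcases Nat.even_or_odd' m with ⟨c, rfl | rfl⟩
      · exfalso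
        have : g * (2 * c) = 2 * (g * c) := by ring
        omega
      · omega
    have h5 : m % 5 ≠ 0 := by
      intro h5
      obtain ⟨c, rfl⟩ := Nat.dvd_of_mod_eq_zero h5
      have : g * (5 * c) = 5 * (g * c) := by ring
      omega
    refine landau_aux n g _ hU ?_
    have h3 : (6 * m - 1) % 60 = 5 ∨ (6 * m - 1) % 60 = 17 ∨ (6 * m - 1) % 60 = 41 ∨
        (6 * m - 1) % 60 = 53 := by omega
    rcases h3 with h3 | h3 | h3 | h3 <;> rw [h3]

theorem landau3 (n g : ℕ) (hg : 2 ≤ g) (h : g ∣ 10 * n + 3) (hg3 : g ≠ 3) (hg7 : g ≠ 7) :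
    10 * n / g + 4 * n / g + 3 * n / g + 1 ≤ 15 * n / g + 2 * n / g := by
  rcases Nat.lt_or_ge g 9 with h9 | h9
  · interval_cases g <;> omega
  · obtain ⟨m, hm⟩ := h
    have hm0 : 0 < m := by
      rcases Nat.eq_zero_or_pos m with rfl | h
      · simp at hm
      · exact h
    have h2 : m % 2 = 1 := by
      rcases Nat.even_or_odd' m with ⟨c, rfl | rfl⟩
      · exfalso
        have : g * (2 * c) = 2 * (g * c) := by ring
        omega
      · omega
    have h5 : m % 5 ≠ 0 := by
      intro h5
      obtain ⟨c, rfl⟩ := Nat.dvd_of_mod_eq_zero h5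
      have : g * (5 * c) = 5 * (g * c) := by ring
      omega
    rcases Nat.lt_or_ge g 18 with h18 | h18
    · have hU : 60 * n / g = 6 * m - 2 := by
        apply Nat.div_eq_of_lt_le
        · have : (6 * m - 2) * g + 2 * g = 6 * (g * m) := by
            rw [← Nat.add_mul, Nat.sub_add_cancel (by omega)]; ring
          omega
        · have : (6 * m - 2 + 1) * g + g = 6 * (g * m) := by
            rw [← Nat.succ_mul, show (6 * m - 2 + 1).succ = 6 * m by omega]; ring
          omega
      refine landau_aux n g _ hU ?_
      have h3 : (6 * m - 2) % 60 = 4 ∨ (6 * m - 2) % 60 = 16 ∨ (6 * m - 2) % 60 = 40 ∨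
          (6 * m - 2) % 60 = 52 := by omega
      rcases h3 with h3 | h3 | h3 | h3 <;> rw [h3]
    · have hU : 60 * n / g = 6 * m - 1 := by
        apply Nat.div_eq_of_lt_le
        · have : (6 * m - 1) * g + g = 6 * (g * m) := by
            rw [← Nat.succ_mul, Nat.succ_eq_add_one, Nat.sub_add_cancel (by omega)]; ring
          omega
        · have : (6 * m - 1 + 1) * g = 6 * (g * m) := by
            rw [Nat.sub_add_cancel (by omega)]; ring
          omega
      refine landau_aux n g _ hU ?_
      have h3 : (6 * m - 1) % 60 = 5 ∨ (6 * m - 1) % 60 = 17 ∨ (6 * m - 1) % 60 = 41 ∨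
          (6 * m - 1) % 60 = 53 := by omega
      rcases h3 with h3 | h3 | h3 | h3 <;> rw [h3]

/-- the number of multiples of `g` in an interval -/
theorem hcount (g u v : ℕ) (huv : u ≤ v) :
    ((Finset.Ioc u v).filter (fun b => g ∣ b)).card = v / g - u / g := by
  have h1 : (Finset.Ioc 0 v).filter (fun b => g ∣ b) =
      (Finset.Ioc 0 u).filter (fun b => g ∣ b) ∪ (Finset.Ioc u v).filter (fun b => g ∣ b) := by
    rw [← Finset.filter_union, Finset.Ioc_union_Ioc_eq_Ioc (Nat.zero_le _) huv]
  have h2 : Disjoint ((Finset.Ioc 0 u).filter (fun b => g ∣ b))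
      ((Finset.Ioc u v).filter (fun b => g ∣ b)) := by
    rw [Finset.disjoint_left]
    intro x hx hx'
    rw [Finset.mem_filter, Finset.mem_Ioc] at hx hx'
    omega
  have h3 := congrArg Finset.card h1
  rw [Finset.card_union_of_disjoint h2, Nat.Ioc_filter_dvd_card_eq_div,
    Nat.Ioc_filter_dvd_card_eq_div] at h3
  omega

/-- elements of the window without `10 n + e` lying in the semigroup generated by `A` -/
noncomputable def wine (n e : ℕ) (A : Finset ℕ) : Finset ℕ := (win n A).erase (10 * n + e)

theorem wine_card_one (n e : ℕ) (he : e = 1 ∨ e = 3) (a : ℕ) (h1 : 2 * n < a) (h2 : a ≤ 3 * n) :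
    2 ≤ (wine n e {a}).card := by
  classical
  have hmem : ∀ c : ℕ, c * a ∈ AddSubmonoid.closure ((({a} : Finset ℕ) : Set ℕ)) := by
    intro c
    rw [← smul_eq_mul]
    exact AddSubmonoid.nsmul_mem _ (AddSubmonoid.subset_closure (by simp)) c
  rcases le_or_gt (2 * a) (5 * n) with h | h
  · have hsub : ({5 * a, 6 * a} : Finset ℕ) ⊆ wine n e {a} := by
      intro x hx
      simp only [Finset.mem_insert, Finset.mem_singleton] at hx
      rw [wine, Finset.mem_erase, win, Finset.mem_filter, Finset.mem_Ioc]
      rcases hx with rfl | rfl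
      · exact ⟨by omega, by omega, hmem 5⟩
      · exact ⟨by omega, by omega, hmem 6⟩
    refine le_trans ?_ (Finset.card_le_card hsub)
    rw [Finset.card_pair (by omega)]
  · have hsub : ({4 * a, 5 * a} : Finset ℕ) ⊆ wine n e {a} := by
      intro x hx
      simp only [Finset.mem_insert, Finset.mem_singleton] at hx
      rw [wine, Finset.mem_erase, win, Finset.mem_filter, Finset.mem_Ioc]
      rcases hx with rfl | rfl
      · exact ⟨by omega, by omega, hmem 4⟩
      · exact ⟨by omega, by omega, hmem 5⟩
    refine le_trans ?_ (Finset.card_le_card hsub)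
    rw [Finset.card_pair (by omega)]

theorem wine_card_five (n e : ℕ) (he : e = 1 ∨ e = 3) (A B : Finset ℕ) (hBA : B ⊆ A)
    (hB : B.Nonempty)
    (h : ∀ a ∈ B, 2 * n < a ∧ a ≤ 3 * n) : 5 * B.card - 4 ≤ (wine n e A).card := by
  classical
  have hsub : B + B + B + B + B ⊆ wine n e A := by
    intro x hx
    simp only [Finset.mem_add] at hx
    obtain ⟨_, ⟨_, ⟨_, ⟨a, ha, b, hb, rfl⟩, c, hc, rfl⟩, d, hd, rfl⟩, f, hf, rfl⟩ := hx
    have h1 := h a ha
    have h2 := h b hb
    have h3 := h c hc
    have h4 := h d hd
    have h5 := h f hf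
    rw [wine, Finset.mem_erase, win, Finset.mem_filter, Finset.mem_Ioc]
    refine ⟨by omega, by omega, ?_⟩
    have hc : ∀ y ∈ B, y ∈ AddSubmonoid.closure (A : Set ℕ) := fun y hy =>
      AddSubmonoid.subset_closure (by exact_mod_cast hBA hy)
    exact add_mem (add_mem (add_mem (add_mem (hc _ ha) (hc _ hb)) (hc _ ‹_›)) (hc _ hd)) (hc _ hf)
  have h2 := cauchy_davenport_add_of_linearOrder_isCancelAdd hB hB
  have h3 := cauchy_davenport_add_of_linearOrder_isCancelAdd (hB.add hB) hB
  have h4 := cauchy_davenport_add_of_linearOrder_isCancelAdd ((hB.add hB).add hB) hB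
  have h5 := cauchy_davenport_add_of_linearOrder_isCancelAdd (((hB.add hB).add hB).add hB) hB
  have h6 := Finset.card_le_card hsub
  have h7 := hB.card_pos
  omega

theorem wine_card (n e : ℕ) (hn : 0 < n) (he : e = 1 ∨ (e = 3 ∧ 3 ≤ n)) (A : Finset ℕ)
    (hA : ∀ a ∈ A, 2 ≤ a ∧ a ≤ 4 * n)
    (h3 : e = 3 → 3 ∉ A) (h7 : e = 3 → 7 ∣ 10 * n + 3 → 7 ∉ A) :
    A.card + (A.filter (fun a => 2 * n < a ∧ a ≤ 3 * n)).card ≤ (wine n e A).card := by
  classical
  have he' : e = 1 ∨ e = 3 := by omega
  set A₁ := A.filter (fun a => 2 * n < a ∧ a ≤ 3 * n) with hA₁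
  rcases A.eq_empty_or_nonempty with rfl | hne
  · simp [hA₁]
  have hsub₁ : A₁ ⊆ A := Finset.filter_subset _ _
  rcases le_or_gt (2 * A₁.card) A.card with hk | hk
  · -- the main case: few elements in the doubled range
    obtain ⟨M, hMA, hM⟩ : ∃ M ∈ A, ∀ a ∈ A, a ≤ M := ⟨A.max' hne, A.max'_mem hne, fun a ha => A.le_max' a ha⟩
    have hM1 := hA M hMA
    have hNZ : NeZero M := ⟨by omega⟩
    -- the criterion for belonging to the semigroup
    have hcrit : ∀ x a a' : ℕ, a ∈ A → a' ∈ A → a + a' ≤ x → (x : ZMod M) = (a : ZMod M) + a' →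
        x ∈ AddSubmonoid.closure (A : Set ℕ) := by
      intro x a a' ha ha' hx hxm
      have h1 : ((x - (a + a') : ℕ) : ZMod M) = 0 := by
        rw [Nat.cast_sub hx, hxm, Nat.cast_add, sub_self]
      rw [ZMod.natCast_eq_zero_iff] at h1
      obtain ⟨j, hj⟩ := h1
      have h2 : x = a + a' + j * M := by
        rw [mul_comm] at hj
        omega
      rw [h2]
      have hc : ∀ y ∈ A, y ∈ AddSubmonoid.closure (A : Set ℕ) := fun y hy =>
        AddSubmonoid.subset_closure (by exact_mod_cast hy)
      refine add_mem (add_mem (hc _ ha) (hc _ ha')) ?_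
      rw [← smul_eq_mul]
      exact AddSubmonoid.nsmul_mem _ (hc _ hMA) j
    set B : Finset (ZMod M) := A.image (fun a : ℕ => (a : ZMod M)) with hB
    have hBcard : B.card = A.card := by
      apply Finset.card_image_of_injOn
      intro a ha a' ha' haa
      have h1 := hA a ha
      have h2 := hA a' ha'
      have h3 := hM a ha
      have h4 := hM a' ha'
      simp only at haa
      rw [ZMod.natCast_eq_natCast_iff'] at haa
      rcases h3.lt_or_eq with h3 | h3
      · rcases h4.lt_or_eq with h4 | h4
        · rwa [Nat.mod_eq_of_lt h3, Nat.mod_eq_of_lt h4] at haa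
        · rw [Nat.mod_eq_of_lt h3, h4, Nat.mod_self] at haa
          omega
      · rcases h4.lt_or_eq with h4 | h4
        · rw [Nat.mod_eq_of_lt h4, h3, Nat.mod_self] at haa
          omega
        · omega
    have h0B : (0 : ZMod M) ∈ B := Finset.mem_image.2 ⟨M, hMA, by simp⟩
    -- the window contains at least `|B + B|` elements
    have hwin : (B + B).card ≤ (wine n e A).card := by
      apply Finset.card_le_card_of_injOn (fun s => 15 * n - ((15 * n : ℕ) - s : ZMod M).val)
      · intro s hs
        have hs' : s ∈ B + B := hs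
        rw [Finset.mem_add] at hs'
        obtain ⟨b, hb, b', hb', rfl⟩ := hs'
        obtain ⟨a, ha, rfl⟩ := Finset.mem_image.1 hb
        obtain ⟨a', ha', rfl⟩ := Finset.mem_image.1 hb'
        have hv := ZMod.val_lt (((15 * n : ℕ) : ZMod M) - ((a : ZMod M) + (a' : ZMod M)))
        have h1 := hM a ha
        have h2 := hM a' ha'
        rw [Finset.mem_coe, wine, Finset.mem_erase, win, Finset.mem_filter, Finset.mem_Ioc]
        beta_reduce
        refine ⟨by omega, by omega, hcrit _ a a' ha ha' (by omega) ?_⟩
        rw [Nat.cast_sub (by omega), ZMod.natCast_zmod_val]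
        ring
      · intro s hs s' hs' hss
        have hv := ZMod.val_lt (((15 * n : ℕ) : ZMod M) - s)
        have hv' := ZMod.val_lt (((15 * n : ℕ) : ZMod M) - s')
        simp only at hss
        have h1 : (((15 * n : ℕ) : ZMod M) - s).val = (((15 * n : ℕ) : ZMod M) - s').val := by
          omega
        have h2 := ZMod.val_injective M h1
        exact sub_right_injective h2
    by_cases hsm : 2 * (B + B).card < 3 * B.card
    · obtain ⟨g, hg, hgM, hgS⟩ := exists_gen (M := M) (by omega) (B + B)
        (by simpa using Finset.add_mem_add h0B h0B) (add_closed_of_small B h0B hsm)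
      -- everything is a multiple of `g`
      have hgA : ∀ a ∈ A, g ∣ a := by
        intro a ha
        rw [← hgS]
        have := Finset.add_mem_add (Finset.mem_image_of_mem (fun a : ℕ => (a : ZMod M)) ha) h0B
        simpa using this
      have hmulwin : ((Finset.Ioc (10 * n) (15 * n)).filter (fun b => g ∣ b)).erase (10 * n + e) ⊆
          wine n e A := by
        intro x hx
        rw [Finset.mem_erase, Finset.mem_filter] at hx
        obtain ⟨hx0, hx1, hx2⟩ := hx
        rw [wine, Finset.mem_erase, win, Finset.mem_filter]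
        refine ⟨hx0, hx1, ?_⟩
        rw [Finset.mem_Ioc] at hx1
        rw [← hgS, Finset.mem_add] at hx2
        obtain ⟨b, hb, b', hb', hbb⟩ := hx2
        obtain ⟨a, ha, rfl⟩ := Finset.mem_image.1 hb
        obtain ⟨a', ha', rfl⟩ := Finset.mem_image.1 hb'
        have h1 := hA a ha
        have h2 := hA a' ha'
        exact hcrit x a a' ha ha' (by omega) hbb.symm
      have hA3 : A₁ ⊆ (Finset.Ioc (2 * n) (3 * n)).filter (fun b => g ∣ b) := by
        intro a ha
        rw [hA₁, Finset.mem_filter] at ha
        rw [Finset.mem_filter, Finset.mem_Ioc]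
        exact ⟨by omega, hgA a ha.1⟩
      have e2 := Finset.card_le_card hA3
      rw [hcount _ _ _ (by omega)] at e2
      have e3 := Finset.card_le_card hmulwin
      have e5 : 2 * n / g ≤ 3 * n / g := Nat.div_le_div_right (by omega)
      have e6 : 10 * n / g ≤ 15 * n / g := Nat.div_le_div_right (by omega)
      have e4 := landau n g
      -- the elements of `A`, with possibly one multiple of `g` missing
      have hmiss : ∀ m, m ∉ A → g ∣ m → 0 < m → m ≤ 4 * n → A.card + 1 ≤ 4 * n / g := by
        intro m hm hgm hm0 hm4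
        have h1 : insert m A ⊆ (Finset.Ioc 0 (4 * n)).filter (fun b => g ∣ b) := by
          intro a ha
          rw [Finset.mem_filter, Finset.mem_Ioc]
          rcases Finset.mem_insert.1 ha with rfl | ha
          · exact ⟨by omega, hgm⟩
          · have := hA a ha
            exact ⟨by omega, hgA a ha⟩
        have h2 := Finset.card_le_card h1
        rw [Finset.card_insert_of_notMem hm, hcount _ _ _ (by omega), Nat.zero_div] at h2
        omega
      have e1 : A.card ≤ 4 * n / g := by
        have hA4 : A ⊆ (Finset.Ioc 0 (4 * n)).filter (fun b => g ∣ b) := by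
          intro a ha
          rw [Finset.mem_filter, Finset.mem_Ioc]
          have := hA a ha
          exact ⟨by omega, hgA a ha⟩
        have h2 := Finset.card_le_card hA4
        rw [hcount _ _ _ (by omega), Nat.zero_div] at h2
        omega
      by_cases hge : g ∣ 10 * n + e
      · have hmem : 10 * n + e ∈ (Finset.Ioc (10 * n) (15 * n)).filter (fun b => g ∣ b) := by
          rw [Finset.mem_filter, Finset.mem_Ioc]
          exact ⟨by omega, hge⟩
        rw [Finset.card_erase_of_mem hmem, hcount _ _ _ (by omega)] at e3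
        rcases Nat.lt_or_ge g 2 with h2 | h2
        · have hg1 : g = 1 := by omega
          subst hg1
          have h1A : 1 ∉ A := fun h => by
            have := hA 1 h
            omega
          have := hmiss 1 h1A (one_dvd _) (by norm_num) (by omega)
          simp only [Nat.div_one] at *
          omega
        · rcases he with rfl | ⟨rfl, hn3⟩
          · have := landau1 n g h2 hge
            omega
          · by_cases hg3 : g = 3
            · subst hg3
              have := hmiss 3 (h3 rfl) (dvd_refl _) (by norm_num) (by omega)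
              omega
            · by_cases hg7 : g = 7
              · subst hg7
                have := hmiss 7 (h7 rfl hge) (dvd_refl _) (by norm_num) (by omega)
                omega
              · have := landau3 n g h2 hge hg3 hg7
                omega
      · have hmem : 10 * n + e ∉ (Finset.Ioc (10 * n) (15 * n)).filter (fun b => g ∣ b) := by
          rw [Finset.mem_filter]
          exact fun h => hge h.2
        rw [Finset.erase_eq_of_notMem hmem, hcount _ _ _ (by omega)] at e3
        omega
    · omega
  · -- many elements in the doubled range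
    have hne₁ : A₁.Nonempty := by
      rw [← Finset.card_pos]
      omega
    have h5 := wine_card_five n e he' A A₁ hsub₁ hne₁ (fun a ha => (Finset.mem_filter.1 ha).2)
    have hpos := hne₁.card_pos
    rcases Nat.lt_or_ge 1 A₁.card with h1 | h1
    · omega
    · have hcA : A.card = 1 := by
        have := hne.card_pos
        omega
      obtain ⟨a, rfl⟩ := Finset.card_eq_one.1 hcA
      have ha : a ∈ A₁ := by
        obtain ⟨b, hb⟩ := hne₁
        have := hsub₁ hb
        rw [Finset.mem_singleton] at this
        rwa [this] at hb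
      have ha' := (Finset.mem_filter.1 ha).2
      have := wine_card_one n e he' a ha'.1 ha'.2
      rw [Finset.card_singleton]
      omega

end Pool.Agent.Q281.QF
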