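import Pool.Agent.Q281.QF.Comb

set_option autoImplicit false

/-!
# Two families of weights and a finite set of degrees; explicit polynomials
-/

namespace Pool.Agent.Q281.QF

open Pool.Agent.TH416.CI
open Polynomial

theorem inSg_of_closure {ι : Type} [DecidableEq ι] (w : ι → ℕ) (I : Finset ι) (b : ℕ)
    (hb : b ∈ AddSubmonoid.closure ((I.image w : Finset ℕ) : Set ℕ)) : InSg w I b := by
  induction hb using AddSubmonoid.closure_induction with
  | mem x hx =>
    obtain ⟨i, hi, rfl⟩ := Finset.mem_image.1 (by exact_mod_cast hx)
    refine ⟨Finsupp.single i 1, ?_, ?_⟩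
    · refine Finsupp.support_single_subset.trans ?_
      simpa using hi
    · rw [Finsupp.weight_single, one_smul]
  | zero => exact ⟨0, by simp, by simp⟩
  | add x y _ _ hx hy =>
    classical
    obtain ⟨α, hα, rfl⟩ := hx
    obtain ⟨β, hβ, rfl⟩ := hy
    exact ⟨α + β, Finsupp.support_add.trans (Finset.union_subset hα hβ), by rw [map_add]⟩

open Classical in
theorem countP_ge {ι : Type} (w : ι → ℕ) (I : Finset ι) (D E : Finset ℕ) (hE : E ⊆ D)
    (h : ∀ b ∈ E, InSg w I b) :
    E.card ≤ D.toList.countP (fun b => @decide (InSg w I b) (Classical.dec _)) := by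
  rw [List.countP_eq_length_filter, ← List.toFinset_card_of_nodup ((Finset.nodup_toList D).filter _)]
  apply Finset.card_le_card
  intro b hb
  rw [List.mem_toFinset, List.mem_filter]
  refine ⟨Finset.mem_toList.2 (hE hb), ?_⟩
  rw [decide_eq_true_eq]
  exact h b hb

open Classical in
theorem ci_two (S T D : Finset ℕ) (c : ℕ) (hS : ∀ a ∈ S, 0 < a) (hT : ∀ a ∈ T, 0 < a)
    (hD : ∀ b ∈ D, 0 < b) (hcard : D.card = c + (S.card + T.card))
    (hcond : ∀ A ⊆ S, ∀ A' ⊆ T, A.card + A'.card ≤
      (D.filter (fun b => b ∈ AddSubmonoid.closure ((A ∪ A' : Finset ℕ) : Set ℕ))).card) :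
    ∃ P : Polynomial ℤ, (∀ k, 0 ≤ P.coeff k) ∧
      ∏ b ∈ D, ((1 : Polynomial ℤ) - X ^ b) =
        P * ((1 - X) ^ c * ((∏ a ∈ S, ((1 : Polynomial ℤ) - X ^ a)) *
          ∏ a ∈ T, ((1 : Polynomial ℤ) - X ^ a))) := by
  let w : Fin c ⊕ ({x // x ∈ S} ⊕ {x // x ∈ T}) → ℕ :=
    Sum.elim (fun _ => 1) (Sum.elim (fun x => x.1) (fun x => x.1))
  obtain ⟨P, hP, hPe⟩ := ci_main w
    (by
      rintro (i | i | i)
      · exact Nat.one_pos
      · exact hS _ i.2
      · exact hT _ i.2) D.toList
    (by rw [Finset.length_toList, hcard]; simp)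
    (by
      intro b hb
      exact hD b (Finset.mem_toList.1 hb))
    (by
      intro I
      by_cases h0 : ∃ i : Fin c, Sum.inl i ∈ I
      · obtain ⟨i, hi⟩ := h0
        have h1 : I.card ≤ D.card := by
          refine (Finset.card_le_univ I).trans ?_
          rw [hcard]
          simp
        refine h1.trans (countP_ge w I D D subset_rfl fun b _ => ?_)
        refine ⟨Finsupp.single (Sum.inl i) b, ?_, ?_⟩
        · refine Finsupp.support_single_subset.trans ?_
          simpa using hi
        · rw [Finsupp.weight_single]
          simp [w]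
      · push Not at h0
        have hl : I.toLeft = ∅ := by
          rw [Finset.eq_empty_iff_forall_notMem]
          intro i hi
          exact h0 i (by simpa using hi)
        have h1 : I.card = I.toRight.toLeft.card + I.toRight.toRight.card := by
          rw [← Finset.card_toLeft_add_card_toRight (u := I), hl, Finset.card_empty, zero_add,
            ← Finset.card_toLeft_add_card_toRight (u := I.toRight)]
        set A := I.toRight.toLeft.image Subtype.val with hA
        set A' := I.toRight.toRight.image Subtype.val with hA'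
        have h2 : A.card = I.toRight.toLeft.card :=
          Finset.card_image_of_injective _ Subtype.val_injective
        have h3 : A'.card = I.toRight.toRight.card :=
          Finset.card_image_of_injective _ Subtype.val_injective
        rw [h1, ← h2, ← h3]
        refine (hcond A ?_ A' ?_).trans (countP_ge w I D _ (Finset.filter_subset _ _)
          fun b hb => inSg_of_closure w I b ?_)
        · intro x hx
          obtain ⟨y, _, rfl⟩ := Finset.mem_image.1 hx
          exact y.2
        · intro x hx
          obtain ⟨y, _, rfl⟩ := Finset.mem_image.1 hx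
          exact y.2
        · refine AddSubmonoid.closure_mono ?_ (Finset.mem_filter.1 hb).2
          intro x hx
          rw [Finset.mem_coe, Finset.mem_union] at hx
          rw [Finset.mem_coe, Finset.mem_image]
          rcases hx with hx | hx
          · obtain ⟨y, hy, rfl⟩ := Finset.mem_image.1 hx
            exact ⟨Sum.inr (Sum.inl y), by simpa using hy, rfl⟩
          · obtain ⟨y, hy, rfl⟩ := Finset.mem_image.1 hx
            exact ⟨Sum.inr (Sum.inr y), by simpa using hy, rfl⟩)
  refine ⟨P, hP, ?_⟩
  rw [Finset.prod_map_toList] at hPe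
  rw [hPe, Fintype.prod_sum_type, Fintype.prod_sum_type]
  congr 1
  simp only [w, Sum.elim_inl, Sum.elim_inr, pow_one, Finset.prod_const, Finset.card_univ,
    Fintype.card_fin]
  rw [Finset.prod_coe_sort S (fun a => (1 : Polynomial ℤ) - X ^ a),
    Finset.prod_coe_sort T (fun a => (1 : Polynomial ℤ) - X ^ a)]

/-- The polynomial with the given list of coefficients. -/
noncomputable def toPoly : List ℤ → Polynomial ℤ
  | [] => 0
  | a :: l => C a + X * toPoly l

/-- Sum of coefficient lists. -/
def addL : List ℤ → List ℤ → List ℤ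
  | [], m => m
  | a :: l, [] => a :: l
  | a :: l, b :: m => (a + b) :: addL l m

theorem toPoly_addL (l m : List ℤ) : toPoly (addL l m) = toPoly l + toPoly m := by
  induction l generalizing m with
  | nil => simp [addL, toPoly]
  | cons a l ih =>
    cases m with
    | nil => simp [addL, toPoly]
    | cons b m =>
      simp only [addL, toPoly, ih, map_add]
      ring

/-- Multiplication by `1 - X ^ b` on coefficient lists. -/
def mulS (b : ℕ) (l : List ℤ) : List ℤ := addL l (List.replicate b 0 ++ l.map (fun a => -a))

theorem toPoly_shift (b : ℕ) (l : List ℤ) :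
    toPoly (List.replicate b 0 ++ l) = X ^ b * toPoly l := by
  induction b with
  | zero => simp
  | succ b ih => rw [List.replicate_succ, List.cons_append, toPoly, ih, C_0]; ring

theorem toPoly_neg (l : List ℤ) : toPoly (l.map (fun a => -a)) = -toPoly l := by
  induction l with
  | nil => simp [toPoly]
  | cons a l ih => rw [List.map_cons, toPoly, toPoly, ih, C_neg]; ring

theorem toPoly_mulS (b : ℕ) (l : List ℤ) : toPoly (mulS b l) = toPoly l * (1 - X ^ b) := by
  rw [mulS, toPoly_addL, toPoly_shift, toPoly_neg]
  ring

/-- Multiplication by several `1 - X ^ b` on coefficient lists. -/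
def mulSs (bs : List ℕ) (l : List ℤ) : List ℤ := bs.foldr mulS l

theorem toPoly_mulSs (bs : List ℕ) (l : List ℤ) :
    toPoly (mulSs bs l) = toPoly l * (bs.map (fun b => (1 : Polynomial ℤ) - X ^ b)).prod := by
  induction bs with
  | nil => simp [mulSs]
  | cons b bs ih =>
    have : mulSs (b :: bs) l = mulS b (mulSs bs l) := rfl
    rw [this, toPoly_mulS, ih, List.map_cons, List.prod_cons]
    ring

theorem toPoly_coeff_nonneg (l : List ℤ) (h : ∀ a ∈ l, 0 ≤ a) (k : ℕ) :
    0 ≤ (toPoly l).coeff k := by
  induction l generalizing k with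
  | nil => simp [toPoly]
  | cons a l ih =>
    rw [toPoly, coeff_add]
    cases k with
    | zero => simpa using h a (by simp)
    | succ k =>
      rw [coeff_C_succ, zero_add, coeff_X_mul]
      exact ih (fun b hb => h b (List.mem_cons_of_mem _ hb)) k

end Pool.Agent.Q281.QF
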